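import Mathlib

set_option autoImplicit false

/-!
# Commuting order-preserving maps of the rationals are eventually dominated by a single function
-/

namespace Pool.Agent.J4.H4.CmwQ

/-- All elements of `A` are eventually bounded by the increasing function `H`. -/
def DomBy (A : Set (ℚ →o ℚ)) (H : ℚ → ℚ) : Prop :=
  Monotone H ∧ (∀ x, x ≤ H x) ∧ ∀ a ∈ A, ∃ N : ℚ, ∀ x, N ≤ x → a x ≤ H x

/-- pairwise commuting maps are eventually bounded by one function -/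
theorem exists_bound (A : Set (ℚ →o ℚ)) (hA : ∀ a ∈ A, ∀ b ∈ A, a * b = b * a) :
    ∃ h : ℚ → ℚ, ∀ a ∈ A, ∃ N : ℚ, ∀ x, N ≤ x → a x ≤ h x := by
  by_cases hc : ∃ x₀ : ℚ, ∀ x : ℚ, ∃ b ∈ A, x ≤ b x₀
  · obtain ⟨x₀, hx₀⟩ := hc
    choose B hB hxB using hx₀
    obtain ⟨u, hu⟩ := exists_surjective_nat ℚ
    refine ⟨fun x => (Finset.range (⌈x⌉₊ + 1)).sup' (by simp) (fun j => B x (u j)), ?_⟩
    intro a ha
    obtain ⟨j, hj⟩ := hu (a x₀)
    refine ⟨j, fun x hx => ?_⟩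
    have h1 : a x ≤ a (B x x₀) := a.monotone (hxB x)
    have h2 : a (B x x₀) = B x (a x₀) := by
      have := congrArg (fun c : ℚ →o ℚ => c x₀) (hA a ha (B x) (hB x))
      exact this
    rw [h2, ← hj] at h1
    refine h1.trans ?_
    refine Finset.le_sup' (fun j => B x (u j)) ?_
    rw [Finset.mem_range]
    have h3 : (j : ℚ) ≤ ⌈x⌉₊ := hx.trans (Nat.le_ceil x)
    have h4 : j ≤ ⌈x⌉₊ := by exact_mod_cast h3
    omega
  · push Not at hc
    choose h hh using hc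
    exact ⟨h, fun a ha => ⟨0, fun x _ => (hh x a ha).le⟩⟩

/-- the bound may be chosen increasing and above the identity -/
theorem exists_domBy (A : Set (ℚ →o ℚ)) (hA : ∀ a ∈ A, ∀ b ∈ A, a * b = b * a) :
    ∃ H, DomBy A H := by
  obtain ⟨h, hh⟩ := exists_bound A hA
  refine ⟨fun x => x ⊔ (Finset.range (⌈x⌉₊ + 1)).sup' (by simp) (fun j => h j), ?_, ?_, ?_⟩
  · intro x y hxy
    refine sup_le_sup hxy ?_
    refine Finset.sup'_mono _ ?_ _
    intro j hj
    rw [Finset.mem_range] at hj ⊢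
    have := Nat.ceil_mono hxy
    omega
  · intro x
    exact le_sup_left
  · intro a ha
    obtain ⟨N, hN⟩ := hh a ha
    refine ⟨N, fun x hx => ?_⟩
    have h1 : x ≤ (⌈x⌉₊ : ℚ) := Nat.le_ceil x
    refine (a.monotone h1).trans ((hN _ (hx.trans h1)).trans ?_)
    refine le_sup_of_le_right ?_
    exact Finset.le_sup' (fun j : ℕ => h j) (by rw [Finset.mem_range]; omega)

/-- finite products of commutative sets of maps are eventually bounded by one function -/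
theorem exists_prod_bound (n : ℕ) : ∀ C : Fin n → Set (ℚ →o ℚ),
    (∀ i, ∀ a ∈ C i, ∀ b ∈ C i, a * b = b * a) →
    ∃ H : ℚ → ℚ, Monotone H ∧ (∀ x, x ≤ H x) ∧
      ∀ c : Fin n → (ℚ →o ℚ), (∀ i, c i ∈ C i) →
        ∃ N : ℚ, ∀ x, N ≤ x → (List.ofFn c).prod x ≤ H x := by
  induction n with
  | zero =>
    intro C _
    refine ⟨id, monotone_id, fun x => le_rfl, fun c _ => ⟨0, fun x _ => ?_⟩⟩
    rw [List.ofFn_zero, List.prod_nil]
    exact le_rfl
  | succ n ih =>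
    intro C hC
    obtain ⟨H₁, hm₁, hi₁, h₁⟩ := ih (fun i => C i.succ) (fun i => hC i.succ)
    obtain ⟨H₂, hm₂, hi₂, h₂⟩ := exists_domBy (C 0) (hC 0)
    refine ⟨fun x => H₂ (H₁ x), hm₂.comp hm₁, fun x => (hi₁ x).trans (hi₂ _), fun c hc => ?_⟩
    obtain ⟨N₁, hN₁⟩ := h₁ (fun i => c i.succ) (fun i => hc i.succ)
    obtain ⟨N₂, hN₂⟩ := h₂ (c 0) (hc 0)
    refine ⟨N₁ ⊔ N₂, fun x hx => ?_⟩
    rw [List.ofFn_succ, List.prod_cons]
    have hx1 : N₁ ≤ x := le_sup_left.trans hx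
    have hx2 : N₂ ≤ x := le_sup_right.trans hx
    have h3 : (c 0 * (List.ofFn fun i => c i.succ).prod) x =
        c 0 ((List.ofFn fun i => c i.succ).prod x) := rfl
    rw [h3]
    exact ((c 0).monotone (hN₁ x hx1)).trans (hN₂ _ (hx2.trans (hi₁ x)))

/-- for every function `H` there is an automorphism of `(ℚ, ≤)` with `H n < f n` for all natural
numbers `n ≥ 1` -/
theorem exists_aut (H : ℚ → ℚ) : ∃ f : ℚ ≃o ℚ, ∀ n : ℕ, 1 ≤ n → H n < f n := by
  let s : ℕ → ℚ := fun m => ∑ j ∈ Finset.range (m + 1), |H j|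
  have hs : Monotone s := by
    intro a b hab
    refine Finset.sum_le_sum_of_subset_of_nonneg ?_ (fun _ _ _ => abs_nonneg _)
    intro j hj
    rw [Finset.mem_range] at hj ⊢
    omega
  let g : ℤ → ℚ := fun n => n + s n.toNat
  have hg1 : ∀ n : ℤ, g n + 1 ≤ g (n + 1) := by
    intro n
    have h1 : s n.toNat ≤ s (n + 1).toNat := hs (by omega)
    show (n : ℚ) + s n.toNat + 1 ≤ ((n + 1 : ℤ) : ℚ) + s (n + 1).toNat
    push_cast
    linarith
  have hg : StrictMono g := strictMono_int_of_lt_succ fun n => by linarith [hg1 n]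
  let f : ℚ → ℚ := fun x => g ⌊x⌋ + Int.fract x * (g (⌊x⌋ + 1) - g ⌊x⌋)
  have hf_lt : ∀ x, f x < g (⌊x⌋ + 1) := by
    intro x
    have h1 := Int.fract_lt_one x
    have h2 := hg1 ⌊x⌋
    have h3 : Int.fract x * (g (⌊x⌋ + 1) - g ⌊x⌋) < 1 * (g (⌊x⌋ + 1) - g ⌊x⌋) :=
      mul_lt_mul_of_pos_right h1 (by linarith)
    show g ⌊x⌋ + Int.fract x * (g (⌊x⌋ + 1) - g ⌊x⌋) < g (⌊x⌋ + 1)
    linarith
  have hf_ge : ∀ x, g ⌊x⌋ ≤ f x := by
    intro x
    have h1 := Int.fract_nonneg x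
    have h2 := hg1 ⌊x⌋
    have h3 : 0 ≤ Int.fract x * (g (⌊x⌋ + 1) - g ⌊x⌋) := mul_nonneg h1 (by linarith)
    show g ⌊x⌋ ≤ g ⌊x⌋ + Int.fract x * (g (⌊x⌋ + 1) - g ⌊x⌋)
    linarith
  have hmono : StrictMono f := by
    intro x y hxy
    rcases (Int.floor_mono hxy.le).lt_or_eq with h | h
    · have h1 : g (⌊x⌋ + 1) ≤ g ⌊y⌋ := hg.monotone (by omega)
      exact (hf_lt x).trans_le (h1.trans (hf_ge y))
    · show g ⌊x⌋ + Int.fract x * (g (⌊x⌋ + 1) - g ⌊x⌋) <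
        g ⌊y⌋ + Int.fract y * (g (⌊y⌋ + 1) - g ⌊y⌋)
      have h2 := hg1 ⌊x⌋
      rw [← h]
      have h3 : Int.fract x < Int.fract y := by
        rw [Int.fract, Int.fract, ← h]
        linarith
      have h4 : Int.fract x * (g (⌊x⌋ + 1) - g ⌊x⌋) < Int.fract y * (g (⌊x⌋ + 1) - g ⌊x⌋) :=
        mul_lt_mul_of_pos_right h3 (by linarith)
      linarith
  have hsurj : Function.Surjective f := by
    intro y
    -- the largest integer `n` with `g n ≤ y`
    obtain ⟨n, hn1, hn2⟩ : ∃ n : ℤ, g n ≤ y ∧ ∀ m : ℤ, g m ≤ y → m ≤ n := by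
      apply Int.exists_greatest_of_bdd (P := fun m => g m ≤ y)
      · refine ⟨⌊y⌋, fun z hz => ?_⟩
        have h1 : (z : ℚ) ≤ g z := by
          show (z : ℚ) ≤ z + s z.toNat
          have : 0 ≤ s z.toNat := Finset.sum_nonneg fun _ _ => abs_nonneg _
          linarith
        rw [Int.le_floor]
        exact h1.trans hz
      · refine ⟨-⌈|y| + s 0⌉, ?_⟩
        have h0 : 0 ≤ s 0 := Finset.sum_nonneg fun _ _ => abs_nonneg _
        have h1 : |y| + s 0 ≤ (⌈|y| + s 0⌉ : ℚ) := Int.le_ceil _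
        have h2 : (0 : ℤ) ≤ ⌈|y| + s 0⌉ := Int.ceil_nonneg (by positivity)
        have h3 : (-⌈|y| + s 0⌉).toNat = 0 := by omega
        show ((-⌈|y| + s 0⌉ : ℤ) : ℚ) + s (-⌈|y| + s 0⌉).toNat ≤ y
        rw [h3]
        push_cast
        have := neg_abs_le y
        linarith
    have hn3 : y < g (n + 1) := by
      by_contra hcon
      have := hn2 (n + 1) (not_lt.1 hcon)
      omega
    have hd : 0 < g (n + 1) - g n := by linarith [hg1 n]
    refine ⟨n + (y - g n) / (g (n + 1) - g n), ?_⟩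
    have hfl : ⌊(n : ℚ) + (y - g n) / (g (n + 1) - g n)⌋ = n := by
      rw [Int.floor_eq_iff]
      constructor
      · have : 0 ≤ (y - g n) / (g (n + 1) - g n) := div_nonneg (by linarith) hd.le
        linarith
      · have : (y - g n) / (g (n + 1) - g n) < 1 := by
          rw [div_lt_one hd]; linarith
        linarith
    show g ⌊(n : ℚ) + (y - g n) / (g (n + 1) - g n)⌋ +
      Int.fract ((n : ℚ) + (y - g n) / (g (n + 1) - g n)) *
        (g (⌊(n : ℚ) + (y - g n) / (g (n + 1) - g n)⌋ + 1) -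
          g ⌊(n : ℚ) + (y - g n) / (g (n + 1) - g n)⌋) = y
    rw [Int.fract, hfl]
    field_simp
    ring
  refine ⟨StrictMono.orderIsoOfSurjective f hmono hsurj, fun n hn => ?_⟩
  show H n < f n
  have h1 : (⌊(n : ℚ)⌋ : ℤ) = (n : ℤ) := by simp
  have h2 := hf_ge (n : ℚ)
  rw [h1] at h2
  refine lt_of_lt_of_le ?_ h2
  show H n < ((n : ℤ) : ℚ) + s ((n : ℤ)).toNat
  have h3 : |H n| ≤ s n :=
    Finset.single_le_sum (f := fun j : ℕ => |H j|) (fun _ _ => abs_nonneg _)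
      (by rw [Finset.mem_range]; omega)
  have h4 : H n ≤ |H n| := le_abs_self _
  have h5 : (1 : ℚ) ≤ n := by exact_mod_cast hn
  rw [Int.toNat_natCast]
  push_cast
  linarith

/-- No finite product of commutative sets of order-preserving maps contains all automorphisms. -/
theorem exists_not_prod (n : ℕ) (C : Fin n → Set (ℚ →o ℚ))
    (hC : ∀ i, ∀ a ∈ C i, ∀ b ∈ C i, a * b = b * a) :
    ∃ f : ℚ ≃o ℚ, ∀ c : Fin n → (ℚ →o ℚ), (∀ i, c i ∈ C i) →
      ∃ x, (List.ofFn c).prod x ≠ f x := by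
  obtain ⟨H, -, -, hH⟩ := exists_prod_bound n C hC
  obtain ⟨f, hf⟩ := exists_aut H
  refine ⟨f, fun c hc => ?_⟩
  obtain ⟨N, hN⟩ := hH c hc
  refine ⟨((⌈N⌉₊ + 1 : ℕ) : ℚ), fun h => ?_⟩
  have h1 : N ≤ ((⌈N⌉₊ + 1 : ℕ) : ℚ) := by
    have := Nat.le_ceil N
    push_cast
    linarith
  have h2 := hN _ h1
  have h3 := hf (⌈N⌉₊ + 1) (by omega)
  rw [h] at h2
  exact absurd h3 (not_lt.2 h2)

end Pool.Agent.J4.H4.CmwQ
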