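import Pool.Agent.R645.RegTree

/-!
The ortholattices `Reg(e)` of finite strict orderings `e` satisfy all identities `f = 1` for the
Boolean tautologies `f`.
-/

namespace Pool.Agent.J4.H4.RegOrtho

open Pool.Agent.R645.RegTree Relation

/-- An ortholattice: a bounded lattice with an order-reversing involution that is a
complementation. -/
class Ortholattice (K : Type*) extends Lattice K, BoundedOrder K where
  orth : K → K
  orth_orth : ∀ x, orth (orth x) = x
  orth_anti : ∀ x y, x ≤ y → orth y ≤ orth x
  sup_orth : ∀ x, x ⊔ orth x = ⊤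
  inf_orth : ∀ x, x ⊓ orth x = ⊥

/-- Ortholattice terms in the variables `var 0, var 1, …`. -/
inductive OTerm where
  | var (i : ℕ) : OTerm
  | sup (s t : OTerm) : OTerm
  | inf (s t : OTerm) : OTerm
  | orth (s : OTerm) : OTerm
  | zero : OTerm
  | one : OTerm

/-- The value of a term in an ortholattice. -/
def OTerm.eval {K : Type*} [Ortholattice K] (v : ℕ → K) : OTerm → K
  | .var i => v i
  | .sup s t => s.eval v ⊔ t.eval v
  | .inf s t => s.eval v ⊓ t.eval v
  | .orth s => Ortholattice.orth (s.eval v)
  | .zero => ⊥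
  | .one => ⊤

/-- The truth value of a term. -/
def OTerm.truth (v : ℕ → Prop) : OTerm → Prop
  | .var i => v i
  | .sup s t => s.truth v ∨ t.truth v
  | .inf s t => s.truth v ∧ t.truth v
  | .orth s => ¬ s.truth v
  | .zero => False
  | .one => True

section

variable {E : Type*} (e : Set (E × E)) (he : IsTransitive e)

theorem trans_of_reg {a : Set (E × E)} (h : IsRegularClosed e a) : IsTransitive a := by
  rw [h.2]
  exact cl_transitive _

theorem open_compl {a : Set (E × E)} (h : IsRegularClosed e a) : IsOpenIn e (e \ a) := by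
  refine ⟨Set.sdiff_subset, ?_⟩
  rw [Set.sdiff_sdiff_cancel_left h.1]
  exact trans_of_reg e h

/-- The orthocomplement `x^⊥ = cl (e ∖ x)`. -/
def orthR (x : Reg e) : Reg e := ⟨cl (e \ x.1), regularClosed_cl he (open_compl e x.2)⟩

/-- The ortholattice `Reg(e)`: join `cl (a ∪ b)`, meet `cl (int (a ∩ b))`, orthocomplement
`cl (e ∖ a)`, smallest element `∅`, largest element `e`. -/
@[instance_reducible]
def regOrtho : Ortholattice (Reg e) where
  toLattice := Reg.lattice e he
  top := ⟨e, by
    refine ⟨subset_rfl, ?_⟩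
    have h0 : cl (∅ : Set (E × E)) = ∅ := cl_eq_of_transitive (fun x y z h _ => h.elim)
    rw [interior_eq he, Set.sdiff_self, h0, Set.sdiff_empty, cl_eq_of_transitive he]⟩
  bot := ⟨∅, by
    refine ⟨Set.empty_subset _, ?_⟩
    symm
    rw [Set.eq_empty_iff_forall_notMem]
    intro p hp
    have := cl_subset (interior_subset e ∅) (fun x y z h _ => h.elim) hp
    exact this⟩
  le_top := fun a => a.2.1
  bot_le := fun a => Set.empty_subset _
  orth := orthR e he
  orth_orth := by
    intro x
    apply Subtype.ext
    change cl (e \ cl (e \ x.1)) = x.1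
    rw [← interior_eq he]
    exact x.2.2.symm
  orth_anti := by
    intro x y h
    change cl (e \ y.1) ⊆ cl (e \ x.1)
    exact cl_mono (Set.sdiff_subset_sdiff_right h)
  sup_orth := by
    intro x
    apply Subtype.ext
    change cl (x.1 ∪ cl (e \ x.1)) = e
    apply Set.Subset.antisymm
    · exact cl_subset (Set.union_subset x.2.1 (cl_subset Set.sdiff_subset he)) he
    · intro p hp
      by_cases h : p ∈ x.1
      · exact subset_cl _ (Or.inl h)
      · exact subset_cl _ (Or.inr (subset_cl _ ⟨hp, h⟩))
  inf_orth := by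
    intro x
    apply Subtype.ext
    change cl (interior e (x.1 ∩ cl (e \ x.1))) = ∅
    have h : interior e (x.1 ∩ cl (e \ x.1)) = ∅ := by
      rw [Set.eq_empty_iff_forall_notMem]
      intro p hp
      have h1 : p ∈ cl (e \ x.1) := (interior_subset _ _ hp).2
      have h2 : p ∈ interior e x.1 := interior_mono Set.inter_subset_left hp
      rw [interior_eq he] at h2
      exact h2.2 h1
    rw [h]
    exact cl_eq_of_transitive (fun x y z h _ => h.elim)

/-- `(a, b)` is a covering pair. -/
def IsCover (p : E × E) : Prop := p ∈ e ∧ ∀ c, ¬ ((p.1, c) ∈ e ∧ (c, p.2) ∈ e)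

include he in
theorem cover_cl {s : Set (E × E)} (hs : s ⊆ e) {p : E × E} (hp : IsCover e p) :
    p ∈ cl s ↔ p ∈ s := by
  constructor
  · intro h
    obtain ⟨c, h1, h2⟩ := firstStep he hs (show (p.1, p.2) ∈ cl s from h)
    rcases h2 with h2 | h2
    · rw [h2] at h1
      exact h1
    · exact absurd ⟨hs h1, h2⟩ (hp.2 c)
  · intro h
    exact subset_cl _ h

include he in
theorem cover_interior {s : Set (E × E)} {p : E × E} (hp : IsCover e p) :
    p ∈ interior e s ↔ p ∈ s := by
  rw [interior_eq he]
  constructor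
  · rintro ⟨h1, h2⟩
    by_contra h
    exact h2 (subset_cl _ ⟨h1, h⟩)
  · intro h
    refine ⟨hp.1, fun h2 => ?_⟩
    rw [cover_cl e he Set.sdiff_subset hp] at h2
    exact h2.2 h

theorem cover_truth (v : ℕ → Reg e) (f : OTerm) {p : E × E} (hp : IsCover e p) :
    p ∈ (@OTerm.eval (Reg e) (regOrtho e he) v f).1 ↔ f.truth fun i => p ∈ (v i).1 := by
  induction f with
  | var i => rfl
  | sup s t hs ht =>
    change p ∈ cl ((@OTerm.eval (Reg e) (regOrtho e he) v s).1 ∪
      (@OTerm.eval (Reg e) (regOrtho e he) v t).1) ↔ _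
    rw [cover_cl e he (Set.union_subset (@OTerm.eval (Reg e) (regOrtho e he) v s).2.1
      (@OTerm.eval (Reg e) (regOrtho e he) v t).2.1) hp,
      Set.mem_union, hs, ht]
    rfl
  | inf s t hs ht =>
    change p ∈ cl (interior e ((@OTerm.eval (Reg e) (regOrtho e he) v s).1 ∩
      (@OTerm.eval (Reg e) (regOrtho e he) v t).1)) ↔ _
    rw [cover_cl e he ((interior_subset _ _).trans (Set.inter_subset_left.trans
      (@OTerm.eval (Reg e) (regOrtho e he) v s).2.1)) hp,
      cover_interior e he hp, Set.mem_inter_iff, hs, ht]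
    rfl
  | orth s hs =>
    change p ∈ cl (e \ (@OTerm.eval (Reg e) (regOrtho e he) v s).1) ↔ _
    rw [cover_cl e he Set.sdiff_subset hp, Set.mem_sdiff, hs]
    exact ⟨fun h => h.2, fun h => ⟨hp.1, h⟩⟩
  | zero => exact Iff.rfl
  | one => exact ⟨fun _ => trivial, fun _ => hp.1⟩

end

theorem cl_covers {E : Type*} [Finite E] (e : Set (E × E)) (he : IsStrictOrdering e) :
    cl {p | IsCover e p} = e := by
  apply Set.Subset.antisymm
  · exact cl_subset (fun p hp => hp.1) he.2
  · have key : ∀ (k : ℕ) (a b : E), (a, b) ∈ e → {c | (a, c) ∈ e ∧ (c, b) ∈ e}.ncard = k →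
        (a, b) ∈ cl {p | IsCover e p} := by
      intro k
      induction k using Nat.strong_induction_on with
      | _ k ih =>
        intro a b hab hk
        by_cases h : ∃ c, (a, c) ∈ e ∧ (c, b) ∈ e
        · obtain ⟨c, h1, h2⟩ := h
          refine cl_transitive _ a c b (ih _ ?_ a c h1 rfl) (ih _ ?_ c b h2 rfl)
          · rw [← hk]
            apply Set.ncard_lt_ncard _ (Set.toFinite _)
            rw [Set.ssubset_iff_exists]
            refine ⟨fun d hd => ⟨hd.1, he.2 _ _ _ hd.2 h2⟩, c, ⟨h1, h2⟩, fun h3 => he.1 c h3.2⟩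
          · rw [← hk]
            apply Set.ncard_lt_ncard _ (Set.toFinite _)
            rw [Set.ssubset_iff_exists]
            refine ⟨fun d hd => ⟨he.2 _ _ _ h1 hd.1, hd.2⟩, c, ⟨h1, h2⟩, fun h3 => he.1 c h3.1⟩
        · push Not at h
          exact subset_cl _ ⟨hab, fun c hc => h c hc.1 hc.2⟩
    rintro ⟨a, b⟩ hab
    exact key _ a b hab rfl

theorem tautology_holds {E : Type*} [Finite E] (e : Set (E × E)) (he : IsStrictOrdering e)
    (f : OTerm) (hf : ∀ v, f.truth v) (v : ℕ → Reg e) :
    @OTerm.eval (Reg e) (regOrtho e he.2) v f = @OTerm.eval (Reg e) (regOrtho e he.2) v .one := by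
  apply Subtype.ext
  change (@OTerm.eval (Reg e) (regOrtho e he.2) v f).1 = e
  apply Set.Subset.antisymm (@OTerm.eval (Reg e) (regOrtho e he.2) v f).2.1
  calc e = cl {p | IsCover e p} := (cl_covers e he).symm
    _ ⊆ _ := cl_subset (fun p hp => (cover_truth e he.2 v f hp).2 (hf _))
      (trans_of_reg e (@OTerm.eval (Reg e) (regOrtho e he.2) v f).2)

/-- The ortholattice with six elements `0, 1, x, x^⊥, y, y^⊥`. -/
inductive MO2 where
  | bot | top | x | x' | y | y'
  deriving DecidableEq

namespace MO2

instance : Fintype MO2 := ⟨{bot, top, x, x', y, y'}, by intro a; cases a <;> decide⟩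

def le (a b : MO2) : Bool := a = b || a = bot || b = top

def sup (a b : MO2) : MO2 := if a = b then a else if a = bot then b else if b = bot then a else top

def inf (a b : MO2) : MO2 := if a = b then a else if a = top then b else if b = top then a else bot

def orth : MO2 → MO2
  | bot => top
  | top => bot
  | x => x'
  | x' => x
  | y => y'
  | y' => y

instance : Ortholattice MO2 where
  le a b := le a b
  le_refl := by decide
  le_trans := by decide
  le_antisymm := by decide
  sup := sup
  le_sup_left := by decide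
  le_sup_right := by decide
  sup_le := by decide
  inf := inf
  inf_le_left := by decide
  inf_le_right := by decide
  le_inf := by decide
  top := top
  bot := bot
  le_top := by decide
  bot_le := by decide
  orth := orth
  orth_orth := by decide
  orth_anti := by decide
  sup_orth := by decide
  inf_orth := by decide

end MO2

/-- The term `(x ∧ y) ∨ (x ∧ y^⊥) ∨ (x^⊥ ∧ y) ∨ (x^⊥ ∧ y^⊥)`. -/
def comm : OTerm :=
  .sup (.sup (.inf (.var 0) (.var 1)) (.inf (.var 0) (.orth (.var 1))))
    (.sup (.inf (.orth (.var 0)) (.var 1)) (.inf (.orth (.var 0)) (.orth (.var 1))))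

theorem comm_taut (v : ℕ → Prop) : comm.truth v := by
  simp only [comm, OTerm.truth]
  tauto

theorem comm_fails : (comm.eval fun i => if i = 0 then MO2.x else MO2.y) ≠
    OTerm.one.eval fun i => if i = 0 then MO2.x else MO2.y := by
  decide

end Pool.Agent.J4.H4.RegOrtho
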